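import Mathlib
import Pool.Agent.H.MP_fcf7f4_nt.B

namespace Pool.Agent.Results.MP_fcf7f4_nt.Holds

open Finset

/-- generalized central trinomial coefficient -/
def T (b c : ℤ) (n : ℕ) : ℤ :=
  ∑ j ∈ range (n / 2 + 1), (n.choose (2 * j) : ℤ) * ((2 * j).choose j : ℤ) * b ^ (n - 2 * j) * c ^ j

/-- generalized Motzkin number, with the Catalan number `C(2j,j) / (j+1)` -/
def M (b c : ℤ) (n : ℕ) : ℤ :=
  ∑ j ∈ range (n / 2 + 1),
    (n.choose (2 * j) : ℤ) * (((2 * j).choose j / (j + 1) : ℕ) : ℤ) * b ^ (n - 2 * j) * c ^ j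

def S (p : ℕ) : ℚ := ∑ k ∈ range p, (T 3 3 k : ℚ) * (M 3 3 k : ℚ) / (-3) ^ k

open Pool.Agent.H.MP_fcf7f4_nt in
lemma T_eq (n : ℕ) : (T 3 3 n : ℚ) = 3 ^ n * E n := by
  rw [T, E, mul_sum]
  push_cast
  refine sum_congr rfl fun j hj => ?_
  obtain ⟨i, rfl⟩ : ∃ i, n = 2 * j + i := ⟨n - 2 * j, by have := mem_range.1 hj; omega⟩
  rw [Nat.add_sub_cancel_left, a]
  field_simp
  ring

open Pool.Agent.H.MP_fcf7f4_nt in
lemma M_eq (n : ℕ) : (M 3 3 n : ℚ) = 3 ^ n * F n := by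
  rw [M, F, mul_sum, Int.cast_sum]
  refine sum_congr rfl fun j hj => ?_
  obtain ⟨i, rfl⟩ : ∃ i, n = 2 * j + i := ⟨n - 2 * j, by have := mem_range.1 hj; omega⟩
  have hd : (j + 1) ∣ (2 * j).choose j := by
    rw [← Nat.centralBinom_eq_two_mul_choose]; exact Nat.succ_dvd_centralBinom j
  rw [Nat.add_sub_cancel_left, a, Int.cast_mul, Int.cast_mul, Int.cast_mul, Int.cast_natCast,
    Int.cast_natCast, Nat.cast_div hd (by positivity)]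
  push_cast
  field_simp
  ring

open Pool.Agent.H.MP_fcf7f4_nt in
lemma S_eq (p : ℕ) : S p = ∑ k ∈ range p, (-3 : ℚ) ^ k * E k * F k := by
  refine sum_congr rfl fun k _ => ?_
  rw [T_eq, M_eq]
  have h : (3 : ℚ) ^ k * 3 ^ k = (-3) ^ k * (-3) ^ k := by rw [← mul_pow, ← mul_pow]; norm_num
  have h0 : (-3 : ℚ) ^ k ≠ 0 := pow_ne_zero _ (by norm_num)
  rw [div_eq_iff h0]
  linear_combination (E k * F k) * h

theorem result (p : ℕ) (hp : p.Prime) (h3 : 3 < p) :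
    (p % 3 = 1 → ∃ r : ℚ, ¬ p ∣ r.den ∧ S p - 2 * (p : ℚ) ^ 2 = (p : ℚ) ^ 3 * r) ∧
    (p % 3 = 2 → ∃ r : ℚ, ¬ p ∣ r.den ∧
      S p - ((p : ℚ) ^ 3 - (p : ℚ) ^ 2 - 3 * p) = (p : ℚ) ^ 4 * r) := by
  rw [S_eq]
  exact Pool.Agent.H.MP_fcf7f4_nt.main (hp := hp) h3

end Pool.Agent.Results.MP_fcf7f4_nt.Holds
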